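import Mathlib

set_option autoImplicit false

namespace Pool.Agent.Results.MP_f5c34b_co.Growth

open Finset PowerSeries Filter

/-- Species trees (rooted binary trees). -/
inductive Tr : Type
  | leaf : Tr
  | node : Tr → Tr → Tr

/-- Number of leaves. -/
def Tr.size : Tr → ℕ
  | .leaf => 1
  | .node l r => l.size + r.size

/-- `B(z) = (1 - sqrt(1-4z))/2 = z * (Catalan series)`. -/
noncomputable def Bser : ℝ⟦X⟧ := X * PowerSeries.map (Nat.castRingHom ℝ) catalanSeries

/-- The generating function `H_root` of duplication-loss histories. -/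
noncomputable def H : Tr → ℝ⟦X⟧
  | .leaf => Bser
  | .node l r => Bser.subst (H l * H r + H l + H r)

/-- Radius of convergence of `H S` (whose coefficients are nonnegative). -/
noncomputable def rho (S : Tr) : ℝ :=
  sSup {x : ℝ | 0 ≤ x ∧ Summable (fun n => coeff n (H S) * x ^ n)}

/-- Exponential growth factor. -/
noncomputable def alpha (S : Tr) : ℝ := (rho S)⁻¹

/-- `ct k` is the caterpillar with `k + 1` leaves. -/
def ct : ℕ → Tr
  | 0 => .leaf
  | k + 1 => .node (ct k) .leaf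

/-- Balanced trees. -/
def Bal : Tr → Prop
  | .leaf => True
  | .node l r => Bal l ∧ Bal r ∧ l.size ≤ r.size + 1 ∧ r.size ≤ l.size + 1

lemma Bser_eq : Bser = X + Bser * Bser := by
  have h := congrArg (PowerSeries.map (Nat.castRingHom ℝ)) catalanSeries_sq_mul_X_add_one
  simp only [map_add, map_mul, map_pow, map_X, map_one] at h
  unfold Bser
  linear_combination (-X) * h

lemma Bser0 : constantCoeff Bser = 0 := by simp [Bser]

lemma H0 : ∀ S, constantCoeff (H S) = 0
  | .leaf => Bser0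
  | .node l r => constantCoeff_subst_eq_zero (a := H l * H r + H l + H r)
      (by
        have : constantCoeff (H l * H r + H l + H r) = 0 := by simp [H0 l, H0 r]
        exact this) _ Bser0

noncomputable def W : Tr → ℝ⟦X⟧
  | .leaf => X
  | .node l r => H l * H r + H l + H r

lemma H_eq : ∀ S, H S = W S + H S * H S
  | .leaf => Bser_eq
  | .node l r => by
    have ha : HasSubst (H l * H r + H l + H r) :=
      HasSubst.of_constantCoeff_zero' (by simp [H0 l, H0 r])
    have h := congrArg (subst (H l * H r + H l + H r)) Bser_eq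
    rw [subst_add ha, subst_mul ha, subst_X ha] at h
    exact h

def NN (F : ℝ⟦X⟧) : Prop := ∀ n, 0 ≤ coeff n F

lemma NN.mul {F G : ℝ⟦X⟧} (hF : NN F) (hG : NN G) : NN (F * G) := fun n => by
  rw [coeff_mul]; exact sum_nonneg fun p _ => mul_nonneg (hF _) (hG _)

lemma NN.add {F G : ℝ⟦X⟧} (hF : NN F) (hG : NN G) : NN (F + G) := fun n => by
  rw [map_add]; exact add_nonneg (hF _) (hG _)

lemma NN_of {F G : ℝ⟦X⟧} (h : F = G + F * F) (h0 : constantCoeff F = 0) (hG : NN G) : NN F := by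
  have h0' : coeff 0 F = 0 := by simpa using h0
  intro n
  induction n using Nat.strong_induction_on with
  | _ n ih =>
    rw [h, map_add, coeff_mul]
    refine add_nonneg (hG n) (sum_nonneg fun p hp => ?_)
    have hp' := mem_antidiagonal.1 hp
    by_cases h1 : p.1 = 0
    · rw [h1, h0', zero_mul]
    by_cases h2 : p.2 = 0
    · rw [h2, h0', mul_zero]
    exact mul_nonneg (ih _ (by omega)) (ih _ (by omega))

lemma NN_X : NN X := fun n => by rw [coeff_X]; split_ifs <;> norm_num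

lemma H_NN : ∀ S, NN (H S)
  | .leaf => NN_of (H_eq _) (H0 _) NN_X
  | .node l r => NN_of (H_eq _) (H0 _) ((((H_NN l).mul (H_NN r)).add (H_NN l)).add (H_NN r))

lemma W_NN : ∀ S, NN (W S)
  | .leaf => NN_X
  | .node l r => (((H_NN l).mul (H_NN r)).add (H_NN l)).add (H_NN r)

noncomputable def tm (x : ℝ) (F : ℝ⟦X⟧) (n : ℕ) : ℝ := coeff n F * x ^ n

lemma tm_nn {x : ℝ} (hx : 0 ≤ x) {F : ℝ⟦X⟧} (hF : NN F) (n : ℕ) : 0 ≤ tm x F n :=
  mul_nonneg (hF n) (pow_nonneg hx n)

lemma tm_add (x : ℝ) (F G : ℝ⟦X⟧) (n : ℕ) : tm x (F + G) n = tm x F n + tm x G n := by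
  simp only [tm, map_add]; ring

lemma tm_mul (x : ℝ) (F G : ℝ⟦X⟧) (n : ℕ) :
    tm x (F * G) n = ∑ p ∈ antidiagonal n, tm x F p.1 * tm x G p.2 := by
  simp only [tm, coeff_mul, sum_mul]
  refine sum_congr rfl fun p hp => ?_
  rw [← mem_antidiagonal.1 hp]; ring

lemma part_mul {x : ℝ} (hx : 0 ≤ x) {F G : ℝ⟦X⟧} (hF : NN F) (hG : NN G)
    (f0 : constantCoeff F = 0) (g0 : constantCoeff G = 0) (N : ℕ) :
    ∑ n ∈ range (N + 1), tm x (F * G) n ≤
      (∑ n ∈ range N, tm x F n) * ∑ n ∈ range N, tm x G n := by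
  simp only [tm_mul]
  rw [← sum_biUnion, sum_mul_sum, ← sum_product', ← sum_filter_ne_zero]
  · refine sum_le_sum_of_subset_of_nonneg ?_ fun p _ _ => mul_nonneg (tm_nn hx hF _) (tm_nn hx hG _)
    intro p hp
    obtain ⟨h1, h2⟩ := mem_filter.1 hp
    obtain ⟨n, hn, hp'⟩ := mem_biUnion.1 h1
    have a1 := mem_range.1 hn
    have a2 := mem_antidiagonal.1 hp'
    have a3 : p.1 ≠ 0 := fun h => h2 (by simp [tm, h, f0])
    have a4 : p.2 ≠ 0 := fun h => h2 (by simp [tm, h, g0])
    exact mem_product.2 ⟨mem_range.2 (by omega), mem_range.2 (by omega)⟩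
  · intro a _ b _ hab
    rw [Function.onFun, disjoint_left]
    intro p h1 h2
    exact hab ((mem_antidiagonal.1 h1).symm.trans (mem_antidiagonal.1 h2))

def Bd (x : ℝ) (F : ℝ⟦X⟧) (y : ℝ) : Prop := ∀ N, ∑ n ∈ range N, tm x F n ≤ y

lemma Bd_H {x w y : ℝ} (hx : 0 ≤ x) (S : Tr) (hw : Bd x (W S) w) (hy : 0 ≤ y)
    (h : w + y * y ≤ y) : Bd x (H S) y := by
  intro N
  induction N with
  | zero => simpa using hy
  | succ N ih =>
    have h1 := part_mul hx (H_NN S) (H_NN S) (H0 S) (H0 S) N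
    have h2 : 0 ≤ ∑ n ∈ range N, tm x (H S) n := sum_nonneg fun n _ => tm_nn hx (H_NN S) n
    have h3 := mul_le_mul ih ih h2 hy
    have h4 := hw (N + 1)
    rw [H_eq S]
    simp only [tm_add, sum_add_distrib]
    linarith

def Ok (D : ℝ) : Tr → Prop
  | .leaf => True
  | .node l r => Ok D l ∧ Ok D r ∧ ((l.size : ℝ) + r.size) ^ 2 ≤ D * (l.size * r.size)

lemma size_pos : ∀ S : Tr, 1 ≤ S.size
  | .leaf => le_rfl
  | .node l r => by have := size_pos l; simp only [Tr.size]; omega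

lemma upper {D x : ℝ} (hD : 1 ≤ D) (hx : 0 ≤ x) : ∀ S, Ok D S → (2 + 2 * D) * (S.size * x) ≤ 1 →
    Bd x (H S) (S.size * x * (1 + (2 + 2 * D) * (S.size * x)))
  | .leaf => fun _ h => by
    simp only [Tr.size, Nat.cast_one, one_mul] at h ⊢
    refine Bd_H (w := x) hx _ ?_ (by positivity) ?_
    · intro N
      simp only [tm, W, coeff_X, ite_mul, one_mul, zero_mul, sum_ite_eq', pow_one]
      split_ifs <;> linarith
    · have h1 : (1 + (2 + 2 * D) * x) * (1 + (2 + 2 * D) * x) ≤ 2 * 2 :=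
        mul_le_mul (by linarith) (by linarith) (by positivity) (by norm_num)
      have h2 := mul_le_mul_of_nonneg_left h1 (mul_nonneg hx hx)
      have h3 := mul_le_mul_of_nonneg_left hD (mul_nonneg hx hx)
      nlinarith
  | .node l r => fun hO h => by
    obtain ⟨h1, h2, h3⟩ := hO
    simp only [Tr.size, Nat.cast_add] at h ⊢
    obtain ⟨a, ha⟩ : ∃ a, a = (l.size : ℝ) * x := ⟨_, rfl⟩
    obtain ⟨b, hb⟩ : ∃ b, b = (r.size : ℝ) * x := ⟨_, rfl⟩
    obtain ⟨C, hC⟩ : ∃ C, C = 2 + 2 * D := ⟨_, rfl⟩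
    have a0 : 0 ≤ a := by rw [ha]; positivity
    have b0 : 0 ≤ b := by rw [hb]; positivity
    have C0 : 0 ≤ C := by linarith
    have hab : (a + b) * (a + b) ≤ D * (a * b) := by
      have := mul_le_mul_of_nonneg_right h3 (mul_nonneg hx hx)
      rw [ha, hb]; nlinarith
    rw [← hC, add_mul (l.size : ℝ), ← ha, ← hb] at h ⊢
    have hCa : C * a ≤ 1 := by nlinarith [mul_nonneg C0 b0]
    have hCb : C * b ≤ 1 := by nlinarith [mul_nonneg C0 a0]
    have i1 := upper hD hx l h1 (by rw [← ha, ← hC]; exact hCa)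
    have i2 := upper hD hx r h2 (by rw [← hb, ← hC]; exact hCb)
    rw [← ha, ← hC] at i1
    rw [← hb, ← hC] at i2
    refine Bd_H (w := a * (1 + C * a) * (b * (1 + C * b)) + a * (1 + C * a) + b * (1 + C * b))
      hx _ ?_ (by positivity) ?_
    · intro N
      simp only [W, tm_add, sum_add_distrib]
      have j1 := part_mul hx (H_NN l) (H_NN r) (H0 l) (H0 r) N
      have j2 := mul_le_mul (i1 N) (i2 N) (sum_nonneg fun n _ => tm_nn hx (H_NN r) n) (by positivity)
      have j3 := tm_nn hx ((H_NN l).mul (H_NN r)) N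
      rw [sum_range_succ] at j1
      linarith [i1 N, i2 N]
    · have k1 : (1 + C * a) * (1 + C * b) ≤ 2 * 2 :=
        mul_le_mul (by linarith) (by linarith) (by positivity) (by norm_num)
      have k2 : (1 + C * (a + b)) * (1 + C * (a + b)) ≤ 2 * 2 :=
        mul_le_mul (by linarith) (by linarith) (by positivity) (by norm_num)
      have k3 := mul_le_mul_of_nonneg_left k1 (mul_nonneg a0 b0)
      have k4 := mul_le_mul_of_nonneg_left k2 (mul_nonneg (add_nonneg a0 b0) (add_nonneg a0 b0))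
      have k5 : C * (a * b) = 2 * (a * b) + 2 * (D * (a * b)) := by rw [hC]; ring
      nlinarith

lemma val_eq {x : ℝ} (hx : 0 ≤ x) (S : Tr) (h : Summable (tm x (H S))) :
    Summable (tm x (W S)) ∧ ∑' n, tm x (H S) n =
      ∑' n, tm x (W S) n + (∑' n, tm x (H S) n) * ∑' n, tm x (H S) n := by
  have e : ∀ n, tm x (H S) n = tm x (W S) n + tm x (H S * H S) n := fun n => by
    rw [← tm_add, ← H_eq]
  have s1 : Summable (tm x (W S)) := Summable.of_nonneg_of_le (tm_nn hx (W_NN S))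
    (fun n => by rw [e n]; linarith [tm_nn hx ((H_NN S).mul (H_NN S)) n]) h
  have s2 : Summable (tm x (H S * H S)) := Summable.of_nonneg_of_le
    (tm_nn hx ((H_NN S).mul (H_NN S))) (fun n => by rw [e n]; linarith [tm_nn hx (W_NN S) n]) h
  refine ⟨s1, ?_⟩
  rw [tsum_mul_tsum_eq_tsum_sum_antidiagonal_of_summable_norm h.norm h.norm]
  simp only [← tm_mul]
  rw [← s1.tsum_add s2]
  exact tsum_congr e

lemma val_node {x : ℝ} (hx : 0 ≤ x) (l r : Tr) (h : Summable (tm x (H (.node l r)))) :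
    Summable (tm x (H l)) ∧ Summable (tm x (H r)) ∧ ∑' n, tm x (H l) n + ∑' n, tm x (H r) n +
      (∑' n, tm x (H (.node l r)) n) * ∑' n, tm x (H (.node l r)) n ≤
      ∑' n, tm x (H (.node l r)) n := by
  obtain ⟨s1, e⟩ := val_eq hx _ h
  have le : ∀ n, tm x (H l) n + tm x (H r) n ≤ tm x (W (.node l r)) n := fun n => by
    simp only [W, tm_add]; linarith [tm_nn hx ((H_NN l).mul (H_NN r)) n]
  have sl : Summable (tm x (H l)) := Summable.of_nonneg_of_le (tm_nn hx (H_NN l))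
    (fun n => by linarith [le n, tm_nn hx (H_NN r) n]) s1
  have sr : Summable (tm x (H r)) := Summable.of_nonneg_of_le (tm_nn hx (H_NN r))
    (fun n => by linarith [le n, tm_nn hx (H_NN l) n]) s1
  refine ⟨sl, sr, ?_⟩
  have := (sl.add sr).tsum_le_tsum le s1
  rw [sl.tsum_add sr] at this
  linarith

lemma lower {x : ℝ} (hx : 0 ≤ x) : ∀ S, Summable (tm x (H S)) → S.size * x ≤ ∑' n, tm x (H S) n
  | .leaf => fun h => by
    obtain ⟨s1, e⟩ := val_eq hx _ h
    have h1 := s1.le_tsum 1 (fun n _ => tm_nn hx (W_NN _) n)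
    have h2 : tm x (W .leaf) 1 = x := by simp [tm, W]
    simp only [Tr.size, Nat.cast_one, one_mul]
    nlinarith [mul_self_nonneg (∑' n, tm x (H .leaf) n)]
  | .node l r => fun h => by
    obtain ⟨sl, sr, e⟩ := val_node hx l r h
    have h1 := lower hx l sl
    have h2 := lower hx r sr
    simp only [Tr.size, Nat.cast_add]
    nlinarith [mul_self_nonneg (∑' n, tm x (H (.node l r)) n)]

lemma val_le {x : ℝ} (hx : 0 ≤ x) (S : Tr) (h : Summable (tm x (H S))) :
    S.size * x ≤ 1 := by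
  obtain ⟨s1, e⟩ := val_eq hx _ h
  have h1 := lower hx S h
  have h2 : 0 ≤ ∑' n, tm x (W S) n := tsum_nonneg (tm_nn hx (W_NN S))
  by_contra hc
  nlinarith

lemma ct_size : ∀ k, (ct k).size = k + 1
  | 0 => rfl
  | k + 1 => by simp only [ct, Tr.size, ct_size k]

lemma ct_low {x : ℝ} (hx : 0 < x) (m : ℕ) : ∀ j : ℕ, Summable (tm x (H (ct (m + j)))) →
    0 < ∑' n, tm x (H (ct (m + j))) n ∧
      (∑' n, tm x (H (ct (m + j))) n)⁻¹ + j ≤ ((m + 1) * x)⁻¹ := by
  intro j
  induction j with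
  | zero =>
    intro h
    have h1 := lower hx.le _ h
    rw [ct_size] at h1
    push_cast at h1 ⊢
    have h2 : 0 < ((m : ℝ) + 1) * x := by positivity
    simp only [add_zero] at h1 ⊢
    exact ⟨by linarith, inv_anti₀ h2 h1⟩
  | succ j ih =>
    intro h
    obtain ⟨sl, sr, e⟩ := val_node hx.le (ct (m + j)) .leaf h
    obtain ⟨p1, p2⟩ := ih sl
    have h2 : 0 ≤ ∑' n, tm x (H .leaf) n := tsum_nonneg (tm_nn hx.le (H_NN _))
    change 0 < ∑' n, tm x (H (.node (ct (m + j)) .leaf)) n ∧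
      (∑' n, tm x (H (.node (ct (m + j)) .leaf)) n)⁻¹ + ((j + 1 : ℕ) : ℝ) ≤ _
    generalize ∑' n, tm x (H (.node (ct (m + j)) .leaf)) n = v at *
    generalize ∑' n, tm x (H (ct (m + j))) n = u at *
    have huv : u ≤ v := by nlinarith [mul_self_nonneg v]
    have hv : 0 < v := by linarith
    refine ⟨hv, ?_⟩
    have : v⁻¹ + 1 ≤ u⁻¹ := by
      rw [inv_eq_one_div, inv_eq_one_div, div_add_one hv.ne', div_le_div_iff₀ hv p1]
      nlinarith
    push_cast
    linarith

lemma rho_ge {D : ℝ} (hD : 1 ≤ D) (S : Tr) (h : Ok D S) : ((2 + 2 * D) * S.size)⁻¹ ≤ rho S := by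
  have hs : (1 : ℝ) ≤ S.size := by exact_mod_cast size_pos S
  have hp : 0 < (2 + 2 * D) * S.size := by positivity
  refine le_csSup ⟨1, ?_⟩ ⟨by positivity, ?_⟩
  · rintro x ⟨hx, hs'⟩
    have := val_le hx S hs'
    nlinarith
  · exact summable_of_sum_range_le (tm_nn (by positivity) (H_NN S))
      (upper hD (by positivity) S h (by rw [← mul_assoc, mul_inv_cancel₀ hp.ne']))

lemma alpha_ge {D : ℝ} (hD : 1 ≤ D) (S : Tr) (h : Ok D S) {c : ℝ} (hc : 0 < c)
    (H1 : ∀ x, 0 < x → Summable (tm x (H S)) → c * x ≤ 1) : c ≤ alpha S := by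
  have hs : (1 : ℝ) ≤ S.size := by exact_mod_cast size_pos S
  have h1 : 0 < rho S := lt_of_lt_of_le (by positivity) (rho_ge hD S h)
  unfold alpha
  rw [le_inv_comm₀ hc h1]
  refine Real.sSup_le ?_ (by positivity)
  rintro x ⟨hx, hs'⟩
  rcases hx.eq_or_lt with h0 | h0
  · rw [← h0]; positivity
  · rw [inv_eq_one_div, le_div_iff₀ hc, mul_comm]
    exact H1 x h0 hs'

lemma bal_ok : ∀ S, Bal S → Ok 5 S
  | .leaf => fun _ => trivial
  | .node l r => fun h => by
    refine ⟨bal_ok l h.1, bal_ok r h.2.1, ?_⟩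
    have h1 : (1 : ℝ) ≤ l.size := by exact_mod_cast size_pos l
    have h2 : (1 : ℝ) ≤ r.size := by exact_mod_cast size_pos r
    have h3 : (l.size : ℝ) ≤ r.size + 1 := by exact_mod_cast h.2.2.1
    have h4 : (r.size : ℝ) ≤ l.size + 1 := by exact_mod_cast h.2.2.2
    nlinarith

lemma ct_ok (D : ℝ) : ∀ k : ℕ, 4 * ((k : ℝ) + 1) ≤ D → Ok D (ct k)
  | 0 => fun _ => trivial
  | k + 1 => fun h => by
    push_cast at h
    refine ⟨ct_ok D k (by linarith), trivial, ?_⟩
    rw [ct_size]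
    simp only [Tr.size]
    push_cast
    have : (0 : ℝ) ≤ k := Nat.cast_nonneg k
    nlinarith

theorem result :
    Tendsto (fun k : ℕ => alpha (ct k) / ((k : ℝ) + 1)) atTop atTop ∧
    ∃ c₁ c₂ : ℝ, 0 < c₁ ∧ c₁ ≤ c₂ ∧
      ∀ S : Tr, Bal S → c₁ * S.size ≤ alpha S ∧ alpha S ≤ c₂ * S.size := by
  refine ⟨?_, 1, 12, one_pos, by norm_num, fun S hS => ?_⟩
  · refine tendsto_atTop.2 fun b => ?_
    obtain ⟨j, hj⟩ := exists_nat_gt (2 * |b|)
    filter_upwards [eventually_ge_atTop (2 * j)] with k hk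
    obtain ⟨m, rfl⟩ : ∃ m, k = m + j := ⟨k - j, by omega⟩
    have hjm : (j : ℝ) ≤ m := by exact_mod_cast (show j ≤ m by omega)
    have hb := le_abs_self b
    have hb0 := abs_nonneg b
    have hj0 : (0 : ℝ) < j := by linarith
    have hm0 : (0 : ℝ) ≤ m := Nat.cast_nonneg m
    have h1 : ((m : ℝ) + 1) * j ≤ alpha (ct (m + j)) := by
      refine alpha_ge (D := 4 * (((m + j : ℕ) : ℝ) + 1)) (by push_cast; linarith) _
        (ct_ok _ _ le_rfl) (by positivity) fun x hx hs => ?_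
      obtain ⟨p1, p2⟩ := ct_low hx m j hs
      have p3 : (j : ℝ) ≤ ((m + 1) * x)⁻¹ := by linarith [inv_pos.2 p1]
      rw [inv_eq_one_div, le_div_iff₀ (by positivity)] at p3
      linarith
    rw [le_div_iff₀ (by positivity)]
    push_cast
    nlinarith
  · have hs : (1 : ℝ) ≤ S.size := by exact_mod_cast size_pos S
    constructor
    · rw [one_mul]
      exact alpha_ge (by norm_num) S (bal_ok S hS) (by linarith) fun x hx h => val_le hx.le S h
    · have h1 := rho_ge (by norm_num) S (bal_ok S hS)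
      have h2 := inv_anti₀ (by positivity) h1
      rw [inv_inv] at h2
      unfold alpha
      linarith

end Pool.Agent.Results.MP_f5c34b_co.Growth
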